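import Pool.Agent.H40.BP.Asm8

/-!
# Quillen's question for `W[[X₀, …, X_{r+1}]]/(X₀^a X₁ - u)`: the main step
-/

set_option autoImplicit false

open Polynomial

noncomputable section

namespace Pool.Agent.Q111.HP

open BQ IsLocalRing Pool.Agent.W394.BQN Pool.Agent.H40.BP

open STEP HX

theorem away_isoA (B : Type) [CommRing B] [IsDomain B] (x p a : B) (A : ℕ) (hx : x ≠ 0)
    (F : B[X]) (hF : F = Polynomial.C (x ^ (A + 1)) * X - Polynomial.C p) :
    Nonempty (Localization.Away (x * a) ≃+*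
      Localization.Away (Ideal.Quotient.mk (Ideal.span {F}) (Polynomial.C (x * a)))) := by
  let f : B →+* B[X] ⧸ Ideal.span {F} := (Ideal.Quotient.mk (Ideal.span {F})).comp Polynomial.C
  have hf : Function.Injective f := by
    rw [injective_iff_map_eq_zero]
    intro b hb
    have h1 : (Polynomial.C b : B[X]) ∈ Ideal.span {F} := Ideal.Quotient.eq_zero_iff_mem.1 hb
    rw [hF] at h1
    exact const_inj B (x ^ (A + 1)) p (pow_ne_zero _ hx) b h1
  have hX : f (x ^ (A + 1)) * Ideal.Quotient.mk (Ideal.span {F}) X = f p := by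
    show Ideal.Quotient.mk (Ideal.span {F}) (Polynomial.C (x ^ (A + 1))) *
      Ideal.Quotient.mk (Ideal.span {F}) X
      = Ideal.Quotient.mk (Ideal.span {F}) (Polynomial.C p)
    rw [← map_mul, Ideal.Quotient.eq, Ideal.mem_span_singleton]
    exact ⟨1, by rw [hF, mul_one]⟩
  have hinj : Function.Injective (Localization.awayMap f x) := by
    rw [Localization.awayMap_injective_iff]
    intro a ha
    exact ⟨0, by rw [pow_zero, one_mul]; exact hf (by rw [ha, map_zero])⟩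
  have hsurj : Function.Surjective (Localization.awayMap f x) := by
    rw [Localization.awayMap_surjective_iff]
    intro α
    obtain ⟨P, rfl⟩ := Ideal.Quotient.mk_surjective α
    induction P using Polynomial.induction_on with
    | C a =>
      exact ⟨a, 0, by rw [pow_zero, one_mul]; rfl⟩
    | add P Q hP hQ =>
      obtain ⟨b, m, hb⟩ := hP
      obtain ⟨c, n, hc⟩ := hQ
      refine ⟨x ^ n * b + x ^ m * c, m + n, ?_⟩
      rw [map_add, map_mul, map_mul, hb, hc, map_pow, map_pow, map_add]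
      ring
    | monomial n a h =>
      obtain ⟨b, m, hb⟩ := h
      refine ⟨p * b, m + (A + 1), ?_⟩
      have e : Ideal.Quotient.mk (Ideal.span {F}) (Polynomial.C a * X ^ (n + 1)) =
          Ideal.Quotient.mk (Ideal.span {F}) (Polynomial.C a * X ^ n) *
            Ideal.Quotient.mk (Ideal.span {F}) X := by
        rw [← map_mul, mul_assoc, ← pow_succ]
      rw [map_mul, hb, ← hX, e, map_pow f x, pow_add]
      ring
  have hinj' := Localization.awayMap_injective_of_dvd f (dvd_mul_right x a) hinj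
  have hsurj' := Localization.awayMap_surjective_of_dvd f (dvd_mul_right x a) hsurj
  exact ⟨RingEquiv.ofBijective (Localization.awayMap f (x * a)) ⟨hinj', hsurj'⟩⟩

theorem hyp_away_pow (h1 : S_AUTC) (h2 : S_WEI) (h3 : S_TR) (h4 : S_QUOT) (h5 : S_PATCH)
    (h6 : S_CPL) (hBC : S_BC) (hPOLR : S_POLR) (hDOM : S_DOM)
    (hA : S_AWAYQ) (hLOCS : S_LOCS)
    (W1 : Type) [CommRing W1] [IsDomain W1] [IsLocalRing W1] [IsNoetherianRing W1]
    [IsAdicComplete (maximalIdeal W1) W1] (x1 t1 p1 a1 : W1) (r A : ℕ)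
    (x p a FR : MvPowerSeries (Fin (r + 1)) W1)
    (hx : x = MvPowerSeries.C x1) (hp : p = MvPowerSeries.C p1) (ha : a = MvPowerSeries.C a1)
    (hFR : FR = x ^ (A + 1) * MvPowerSeries.X 0 - p)
    (hq : ∀ f : MvPowerSeries (Fin (r + 1)) W1,
      f ∈ Ideal.span {x, MvPowerSeries.C t1, p} ↔ ¬ UC f)
    (hqp : (Ideal.span {x, MvPowerSeries.C t1, p}).IsPrime)
    (hxp : (Ideal.span {x, p}).IsPrime) (hxpr : Prime x) (hxndp : ¬ x ∣ p)
    (hxpr0 : Prime (MvPowerSeries.C x1 : MvPowerSeries (Fin r) W1))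
    (hppr0 : Prime (MvPowerSeries.C p1 : MvPowerSeries (Fin r) W1))
    (hpndx0 : ¬ (MvPowerSeries.C p1 : MvPowerSeries (Fin r) W1) ∣ MvPowerSeries.C x1)
    (ha0 : Ideal.Quotient.mk (Ideal.span {FR}) a ≠ 0)
    (hX : AF (Localization.Away (MvPowerSeries.C x1 * MvPowerSeries.C a1 :
      MvPowerSeries (Fin r) W1))) :
    AF (QF (rel 1 (Ideal.Quotient.mk (Ideal.span {FR}) (x * a)) 1)) := by
  have hRd : IsDomain (MvPowerSeries (Fin (r + 1)) W1) :=
    NoZeroDivisors.to_isDomain _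
  have hBd : IsDomain (MvPowerSeries (Fin r) W1) := NoZeroDivisors.to_isDomain _
  have hFR' : FR = x * (x ^ A * MvPowerSeries.X 0) - p := by rw [hFR, pow_succ]; ring
  obtain ⟨hdom, Ω, _, _, _, _, φ, hφ, hfrac, hmaxΩ, hprΩ⟩ := dxl
    (MvPowerSeries (Fin (r + 1)) W1) x (MvPowerSeries.C t1)
    (x ^ A * MvPowerSeries.X 0) p _ hqp rfl hxp hxpr hxndp FR hFR'
  set mk := Ideal.Quotient.mk (Ideal.span {FR}) with hmk
  have hFq : FR ∈ Ideal.span {x, MvPowerSeries.C t1, p} := by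
    rw [hFR']
    exact Ideal.sub_mem _ (Ideal.mul_mem_right _ _ (Ideal.subset_span (by simp)))
      (Ideal.subset_span (by simp))
  -- elements with a unit coefficient are not zero in the quotient
  have hmk0 : ∀ f : MvPowerSeries (Fin (r + 1)) W1, UC f → mk f ≠ 0 := by
    intro f hf h0
    have h4 : f ∈ Ideal.span {FR} := Ideal.Quotient.eq_zero_iff_mem.1 h0
    exact (hq f).1 ((Ideal.span_singleton_le_iff_mem _).2 hFq h4) hf
  have hx00 : mk x ≠ 0 := by
    intro h0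
    apply hprΩ.ne_zero
    show φ (mk x) = 0
    rw [h0, map_zero]
  have hx0 : mk (x * a) ≠ 0 := by
    rw [map_mul]
    exact mul_ne_zero hx00 ha0
  have hD := domQ1 hA _ (mk (x * a)) hx0
  obtain ⟨ψ, hψ, hψf⟩ := hBC _ Ω φ hφ ((ucS W1 (r + 1)).map mk)
    (fun z => by
      obtain ⟨f, hf, b, hb⟩ := hfrac z
      refine ⟨mk f, ⟨f, mem_ucS.2 ?_, rfl⟩, b, hb⟩
      by_contra hc
      exact hf ((hq f).2 hc)) 1 (rel 1 (mk (x * a)) 1) hD.1
    (by
      rintro _ ⟨f, hf, rfl⟩ h0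
      exact hmk0 f (mem_ucS.1 hf) (hD.2 _ h0))
  have hΩ : AF (QF (MvPolynomial.map φ (rel 1 (mk (x * a)) 1))) := by
    rw [Pool.Agent.H40.BP.map_rel, map_one]
    have h7 := (hLOCS Ω _ _ hmaxΩ hprΩ (φ (mk a)) (fun h0 => ha0 (hφ (by
      rw [map_zero]
      exact h0)))).1
    rwa [← map_mul, ← map_mul] at h7
  intro m n E hE
  -- splitting over the localisation
  let M : Submonoid (QF (rel 1 (mk (x * a)) 1)) :=
    { carrier := {z | ∃ f : MvPowerSeries (Fin (r + 1)) W1, UC f ∧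
        z = qm (rel 1 (mk (x * a)) 1) (MvPolynomial.C (mk f))}
      one_mem' := ⟨1, uc_one, by rw [map_one, MvPolynomial.C_1, map_one]⟩
      mul_mem' := by
        rintro a b ⟨f, hf, rfl⟩ ⟨g, hg, rfl⟩
        exact ⟨f * g, uc_mul hf hg, by
          rw [← map_mul (qm (rel 1 (mk (x * a)) 1)), ← MvPolynomial.C_mul, ← map_mul mk]⟩ }
  have hsp := hΩ m n (E.map (MvPolynomial.map ψ)) (map_idem hE _)
  obtain ⟨z, ⟨f, hf, hzf⟩, hsE⟩ := splitAt_of_loc ψ hψ M (by
    intro ω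
    obtain ⟨s, ⟨f, hf, hfs⟩, a, ha⟩ := hψf ω
    subst hfs
    exact ⟨_, ⟨f, mem_ucS.1 hf, rfl⟩, a, ha⟩) m E hsp
  subst hzf
  -- the automorphism
  obtain ⟨σ, k, hk, hσC, hσX⟩ := h1 r W1 f hf
  have hσF : σ FR = FR := by
    rw [hFR, map_sub, map_mul, map_pow σ, hσX, hx, hp, hσC, hσC]
  let σ' : MvPowerSeries (Fin (r + 1)) W1 ⧸ Ideal.span {FR} ≃+*
      MvPowerSeries (Fin (r + 1)) W1 ⧸ Ideal.span {FR} :=
    Ideal.quotientEquiv _ _ σ (by
      rw [Ideal.map_span, Set.image_singleton]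
      congr 2
      exact hσF.symm)
  have hσ' : ∀ g, σ' (mk g) = mk (σ g) := fun g => Ideal.quotientEquiv_mk _ _ _ _ g
  let Θ : QF (rel 1 (mk (x * a)) 1) ≃+* QF (rel 1 (mk (x * a)) 1) :=
    qfEquiv σ' _ _ (by
      rw [Pool.Agent.H40.BP.map_rel, map_one]
      congr 1
      show σ' (mk (x * a)) = mk (x * a)
      rw [hσ', map_mul, hx, ha, hσC, hσC])
  have hΘ : ∀ g, Θ (qm _ (MvPolynomial.C g)) = qm _ (MvPolynomial.C (σ' g)) := by
    intro g
    show Ideal.quotientEquiv _ _ _ _ (Ideal.Quotient.mk _ _) = _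
    rw [Ideal.quotientEquiv_mk]
    congr 1
    rw [MvPolynomial.mapEquiv_apply, MvPolynomial.map_C]
    rfl
  refine of_mapEquivZ Θ m n E _ hE hsE fun E1 hE1 hs1 => ?_
  rw [hΘ, hσ'] at hs1
  -- Weierstrass preparation
  have hcpl := h6 r W1
  set e0 : MvPowerSeries (Fin (r + 1)) W1 ≃+*
      PowerSeries (MvPowerSeries (Fin r) W1) :=
    (MvPowerSeries.finSuccEquiv W1 r).toRingEquiv with he0
  have hcoe : IsUnit (PowerSeries.coeff k (e0 (σ f))) := by
    rw [MvPowerSeries.isUnit_iff_constantCoeff]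
    have h1 : MvPowerSeries.coeff 0 (PowerSeries.coeff k
        (MvPowerSeries.finSuccEquiv W1 r (σ f))) =
        MvPowerSeries.coeff ((0 : Fin r →₀ ℕ).cons k) (σ f) :=
      MvPowerSeries.coeff_coeff_finSuccEquiv _
    have h2 : (0 : Fin r →₀ ℕ).cons k = Finsupp.single 0 k := by
      ext i
      refine Fin.cases ?_ (fun j => ?_) i
      · simp
      · simp
    rw [h2] at h1
    rw [← h1] at hk
    rw [MvPowerSeries.coeff_zero_eq_constantCoeff_apply] at hk
    exact hk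
  obtain ⟨g, w, hw, hfg, -, -, hpat⟩ := h2 (MvPowerSeries (Fin r) W1) (e0 (σ f))
    ⟨k, hcoe⟩
  set ι0 : (MvPowerSeries (Fin r) W1)[X] →+*
      MvPowerSeries (Fin (r + 1)) W1 :=
    (e0.symm : PowerSeries (MvPowerSeries (Fin r) W1) →+*
      MvPowerSeries (Fin (r + 1)) W1).comp
      Polynomial.coeToPowerSeries.ringHom with hι0
  have hpat0 : AnPatch ι0 g := patch_equiv hpat e0.symm
  have hι0C : ∀ a : W1, ι0 (Polynomial.C (MvPowerSeries.C a)) =
      MvPowerSeries.C a := by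
    intro a
    apply e0.injective
    rw [hι0, RingHom.comp_apply]
    show e0 (e0.symm _) = _
    rw [e0.apply_symm_apply, he0]
    show ((Polynomial.C (MvPowerSeries.C a) : (MvPowerSeries (Fin r) W1)[X]) :
      PowerSeries (MvPowerSeries (Fin r) W1)) =
        MvPowerSeries.finSuccEquiv W1 r (MvPowerSeries.C a)
    rw [MvPowerSeries.finSuccEquiv_C, Polynomial.coe_C]
  have hι0X : ι0 X = MvPowerSeries.X 0 := by
    apply e0.injective
    rw [hι0, RingHom.comp_apply]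
    show e0 (e0.symm _) = _
    rw [e0.apply_symm_apply, he0]
    show ((Polynomial.X : (MvPowerSeries (Fin r) W1)[X]) :
      PowerSeries (MvPowerSeries (Fin r) W1)) =
        MvPowerSeries.finSuccEquiv W1 r (MvPowerSeries.X 0)
    rw [MvPowerSeries.finSuccEquiv_X_zero, Polynomial.coe_X]
  have hσfg : σ f = ι0 g * e0.symm w := by
    apply e0.injective
    rw [map_mul, e0.apply_symm_apply, hι0, RingHom.comp_apply]
    show _ = e0 (e0.symm _) * w
    rw [e0.apply_symm_apply]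
    exact hfg
  have hw' : IsUnit (e0.symm w) := hw.map e0.symm
  -- the polynomial side
  obtain ⟨FB, hFB⟩ : ∃ F : (MvPowerSeries (Fin r) W1)[X],
    F = Polynomial.C (MvPowerSeries.C x1 ^ (A + 1)) * X -
      Polynomial.C (MvPowerSeries.C p1) := ⟨_, rfl⟩
  have hιF : ι0 FB = FR := by
    rw [hFB, hFR, map_sub, map_mul, C_pow, map_pow ι0, hι0C, hι0C, hι0X, hx, hp]
  have hDA : IsDomain ((MvPowerSeries (Fin r) W1)[X] ⧸ Ideal.span {FB}) := by
    have hD0 := (hDOM _ (MvPowerSeries.C x1 ^ (A + 1) : MvPowerSeries (Fin r) W1)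
      (MvPowerSeries.C p1) hppr0 (fun h => hpndx0 (hppr0.dvd_of_dvd_pow h)) 0).1
    obtain ⟨e1⟩ := hPOLR (MvPowerSeries (Fin r) W1) 0
      (MvPowerSeries.C x1 ^ (A + 1)) (MvPowerSeries.C p1)
    have e2 := e1.trans (qfZero (Polynomial.C (MvPowerSeries.C x1 ^ (A + 1)) * X :
      (MvPowerSeries (Fin r) W1)[X])
        (Polynomial.C (MvPowerSeries.C p1)))
    rw [hFB]
    exact MulEquiv.isDomain _ e2.symm.toMulEquiv
  have hprod : mk (σ f) = mk (ι0 g) * mk (e0.symm w) := by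
    rw [← map_mul, ← hσfg]
  have hg1 : mk (ι0 g) ≠ 0 := by
    intro h0
    exact hmk0 (σ f) ⟨_, hk⟩ (by rw [hprod, h0, zero_mul])
  have hxB : (MvPowerSeries.C x1 : MvPowerSeries (Fin r) W1) ≠ 0 :=
    hxpr0.ne_zero
  have ha1 : (MvPowerSeries.C a1 : MvPowerSeries (Fin r) W1) ≠ 0 := by
    intro h0
    apply ha0
    have h5 := congrArg MvPowerSeries.constantCoeff h0
    rw [MvPowerSeries.constantCoeff_C, map_zero] at h5
    rw [ha, h5, map_zero, map_zero]
  have haA : Ideal.Quotient.mk (Ideal.span {FB})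
      (Polynomial.C (MvPowerSeries.C x1 * MvPowerSeries.C a1)) ≠ 0 := by
    intro h0
    have h4 := Ideal.Quotient.eq_zero_iff_mem.1 h0
    rw [hFB] at h4
    exact mul_ne_zero hxB ha1 (const_inj _ _ _ (pow_ne_zero (A + 1) hxB) _ h4)
  have hAF : AF (QF (rel 1 (Ideal.Quotient.mk (Ideal.span {FB})
      (Polynomial.C (MvPowerSeries.C x1 * MvPowerSeries.C a1))) 1)) := by
    obtain ⟨eA, -⟩ := hA _ (Ideal.Quotient.mk (Ideal.span {FB})
      (Polynomial.C (MvPowerSeries.C x1 * MvPowerSeries.C a1)))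
    obtain ⟨eB⟩ := away_isoA _ _ (MvPowerSeries.C p1) (MvPowerSeries.C a1) A hxB FB hFB
    exact (hX.of_equiv eB).of_equiv eA.symm
  refine coreB h3 h4 h5 hA ι0 g hpat0 FB FR hιF hDA hdom hg1
    (Polynomial.C (MvPowerSeries.C x1 * MvPowerSeries.C a1)) (x * a)
    (by rw [map_mul, map_mul, hι0C, hι0C, hx, ha]) haA hx0 hAF m n E1 hE1 ?_
  apply SplitAt.of_mul (u := MvPolynomial.C (qm (rel 1 (mk (x * a)) 1)
    (MvPolynomial.C (mk (e0.symm w))))) ((((hw'.map mk).map MvPolynomial.C).map (qm _)).map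
      MvPolynomial.C)
  rw [← MvPolynomial.C_mul, ← map_mul, ← MvPolynomial.C_mul, ← hprod]
  exact hs1

end Pool.Agent.Q111.HP
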