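import Pool.Agent.Q111.HP.QU
import Pool.Agent.Q111.HP.REGK

/-!
# Quillen's question for `W[[X₀, …, X_{r+1}]]/(X₀^a X₁ - u)`
-/

set_option autoImplicit false

open Polynomial TensorProduct

noncomputable section

namespace Pool.Agent.Q111.HP

open BQ IsLocalRing Pool.Agent.W394.BQN Pool.Agent.H40.BP

/-- `W` embeds into `W[[x]][[w,X]]/(xw-u)` -/
theorem pow_const (W : Type) [CommRing W] [IsDomain W] [IsLocalRing W] [IsNoetherianRing W]
    (u : W) (hu : u ∈ maximalIdeal W) (r A : ℕ) (a0 : W) (ha0 : a0 ≠ 0) :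
    Ideal.Quotient.mk (Ideal.span {(MvPowerSeries.C PowerSeries.X ^ (A + 1) * MvPowerSeries.X 0 -
      MvPowerSeries.C (PowerSeries.C u) : MvPowerSeries (Fin (r + 1)) (PowerSeries W))})
      (MvPowerSeries.C (PowerSeries.C a0)) ≠ 0 := by
  intro h0
  have h1 := Ideal.Quotient.eq_zero_iff_mem.1 h0
  rw [Ideal.mem_span_singleton] at h1
  obtain ⟨b, hb⟩ := h1
  have e0 : a0 = -(u * PowerSeries.coeff 0 (MvPowerSeries.coeff (Finsupp.single 0 0) b)) := by
    have h2 := congrArg MvPowerSeries.constantCoeff hb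
    rw [MvPowerSeries.constantCoeff_C, map_mul, map_sub, map_mul, MvPowerSeries.constantCoeff_C,
      MvPowerSeries.constantCoeff_X, mul_zero, zero_sub] at h2
    have h3 := congrArg (PowerSeries.coeff 0) h2
    rw [PowerSeries.coeff_zero_C, neg_mul, map_neg, PowerSeries.coeff_C_mul] at h3
    rw [Finsupp.single_zero, MvPowerSeries.coeff_zero_eq_constantCoeff_apply]
    exact h3
  have e1 : ∀ n : ℕ, PowerSeries.coeff (n * (A + 1)) (MvPowerSeries.coeff (Finsupp.single 0 n) b) =
      u * PowerSeries.coeff ((n + 1) * (A + 1))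
        (MvPowerSeries.coeff (Finsupp.single 0 (n + 1)) b) := by
    intro n
    have h2 := congrArg (MvPowerSeries.coeff (Finsupp.single 0 (n + 1))) hb
    have h3 : MvPowerSeries.coeff (Finsupp.single (0 : Fin (r + 1)) (n + 1))
        (MvPowerSeries.C (PowerSeries.C a0) : MvPowerSeries (Fin (r + 1)) (PowerSeries W)) = 0 := by
      classical
      rw [MvPowerSeries.coeff_C, if_neg]
      intro h
      rw [Finsupp.single_eq_zero] at h
      exact Nat.succ_ne_zero n h
    have h4 : MvPowerSeries.coeff (Finsupp.single (0 : Fin (r + 1)) (n + 1))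
        ((MvPowerSeries.X 0 : MvPowerSeries (Fin (r + 1)) (PowerSeries W)) * b) =
        MvPowerSeries.coeff (Finsupp.single 0 n) b := by
      have h5 := MvPowerSeries.coeff_add_monomial_mul (Finsupp.single (0 : Fin (r + 1)) 1)
        (Finsupp.single (0 : Fin (r + 1)) n) b (1 : PowerSeries W)
      rw [one_mul, ← Finsupp.single_add, add_comm 1 n] at h5
      exact h5
    rw [h3, sub_mul, map_sub, mul_assoc, ← map_pow MvPowerSeries.C, MvPowerSeries.coeff_C_mul,
      MvPowerSeries.coeff_C_mul, h4] at h2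
    have h6 := congrArg (PowerSeries.coeff (n * (A + 1) + (A + 1))) h2
    rw [map_zero, map_sub, PowerSeries.coeff_X_pow_mul, PowerSeries.coeff_C_mul] at h6
    rw [add_mul, one_mul]
    exact sub_eq_zero.1 h6.symm
  have e2 : ∀ n : ℕ, ∃ c, a0 = u ^ (n + 1) * c := by
    intro n
    refine ⟨-PowerSeries.coeff (n * (A + 1)) (MvPowerSeries.coeff (Finsupp.single 0 n) b), ?_⟩
    induction n with
    | zero => rw [zero_add, pow_one, mul_neg, zero_mul]; exact e0
    | succ n ih => rw [ih, e1 n]; ring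
  apply ha0
  have h7 : a0 ∈ ⨅ i : ℕ, maximalIdeal W ^ i := by
    rw [Ideal.mem_iInf]
    intro i
    obtain ⟨c, hc⟩ := e2 i
    rw [hc, pow_succ, mul_assoc]
    exact Ideal.mul_mem_right _ _ (Ideal.pow_mem_pow hu i)
  rw [Ideal.iInf_pow_eq_bot_of_isLocalRing _ (maximalIdeal.isMaximal W).ne_top] at h7
  exact h7

/-- the ideal generated by `X₀^(A+1) X₁ - u` -/
def phI (W : Type) [CommRing W] (u : W) (A r : ℕ) : Ideal (MvPowerSeries (Fin (r + 2)) W) :=
  Ideal.span {MvPowerSeries.X 0 ^ (A + 1) * MvPowerSeries.X 1 - MvPowerSeries.C u}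

/-- the ring `W[[X₀, …, X_{r+1}]]/(X₀^(A+1) X₁ - u)` -/
def PH (W : Type) [CommRing W] (u : W) (A r : ℕ) : Type :=
  MvPowerSeries (Fin (r + 2)) W ⧸ phI W u A r

instance (W : Type) [CommRing W] (u : W) (A r : ℕ) : CommRing (PH W u A r) :=
  Ideal.Quotient.commRing (phI W u A r)

/-- the projection -/
def phMk (W : Type) [CommRing W] (u : W) (A r : ℕ) :
    MvPowerSeries (Fin (r + 2)) W →+* PH W u A r := Ideal.Quotient.mk (phI W u A r)

/-- the rings `H[1/(a X_0)]` -/
theorem ph_away (W : Type) [CommRing W] [IsDomain W] [IsLocalRing W] [IsNoetherianRing W]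
    [IsAdicComplete (maximalIdeal W) W] (u t : W) (hut : maximalIdeal W = Ideal.span {u, t})
    (hu : Prime u) (r A : ℕ) (a : W) (ha0 : a ≠ 0)
    (haC : AF (Localization.Away (MvPowerSeries.C a * MvPowerSeries.X 0 :
      MvPowerSeries (Fin (r + 1)) W))) :
    AF (Localization.Away (phMk W u A r (MvPowerSeries.X 0 * MvPowerSeries.C a))) := by
  have hW1 : IsAdicComplete (maximalIdeal (PowerSeries W)) (PowerSeries W) := t_CPLP W
  have hW1d : IsDomain (PowerSeries W) := NoZeroDivisors.to_isDomain _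
  obtain ⟨hpu1, hfact⟩ := t_FACTX W u t hut hu
  obtain ⟨hq, hqp, hxp, hxpr, hppr, hxndp, hpndx⟩ := hfact (r + 1) _ _ _ rfl rfl rfl
  obtain ⟨-, -, -, hxpr0, hppr0, -, hpndx0⟩ := hfact r _ _ _ rfl rfl rfl
  have hum : u ∈ maximalIdeal W := by
    rw [hut]
    exact Ideal.subset_span (by simp)
  have hX : AF (Localization.Away (MvPowerSeries.C PowerSeries.X *
      MvPowerSeries.C (PowerSeries.C a) : MvPowerSeries (Fin r) (PowerSeries W))) := by
    obtain ⟨e, he1, he2, he3⟩ := t_SW r W
    have h8 := AF.away e.symm _ haC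
    have h9 : e.symm (MvPowerSeries.C a * MvPowerSeries.X 0) =
        MvPowerSeries.C PowerSeries.X * MvPowerSeries.C (PowerSeries.C a) := by
      apply e.injective
      rw [e.apply_symm_apply, map_mul, he1, he2, mul_comm]
    rwa [h9] at h8
  have key := hyp_away_pow t_AUTC t_WEI t_TR t_QUOT t_PATCH t_CPL t_BC t_POLR t_DOM t_AWAYQ
    c_LOCS (PowerSeries W) PowerSeries.X (PowerSeries.C t) (PowerSeries.C u) (PowerSeries.C a) r A
    _ _ _ _ rfl rfl rfl rfl hq hqp hxp hxpr hxndp hxpr0 hppr0 hpndx0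
    (pow_const W u hum r A a ha0) hX
  obtain ⟨eA, -⟩ := t_AWAYQ _ (Ideal.Quotient.mk (Ideal.span {(MvPowerSeries.C PowerSeries.X ^ (A + 1) *
    MvPowerSeries.X 0 - MvPowerSeries.C (PowerSeries.C u) :
      MvPowerSeries (Fin (r + 1)) (PowerSeries W))})
    (MvPowerSeries.C PowerSeries.X * MvPowerSeries.C (PowerSeries.C a)))
  have key2 := key.of_equiv eA
  obtain ⟨e, he1, he2, he3⟩ := t_SW (r + 1) W
  let e1 : MvPowerSeries (Fin (r + 1)) (PowerSeries W) ⧸ Ideal.span
      {(MvPowerSeries.C PowerSeries.X ^ (A + 1) * MvPowerSeries.X 0 -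
        MvPowerSeries.C (PowerSeries.C u) : MvPowerSeries (Fin (r + 1)) (PowerSeries W))} ≃+*
      PH W u A r :=
    Ideal.quotientEquiv _ (phI W u A r) e (by
      rw [phI, Ideal.map_span, Set.image_singleton]
      congr 2
      show _ = e (MvPowerSeries.C PowerSeries.X ^ (A + 1) * MvPowerSeries.X 0 -
        MvPowerSeries.C (PowerSeries.C u))
      rw [map_sub, map_mul, map_pow e, he1, he2, he3]
      rfl)
  have h10 := AF.away e1 _ key2
  have h11 : e1 (Ideal.Quotient.mk _ (MvPowerSeries.C PowerSeries.X *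
      MvPowerSeries.C (PowerSeries.C a))) =
      phMk W u A r (MvPowerSeries.X 0 * MvPowerSeries.C a) := by
    show Ideal.quotientEquiv _ _ _ _ (Ideal.Quotient.mk _ _) = _
    rw [Ideal.quotientEquiv_mk, map_mul, he1, he2]
    rfl
  rwa [h11] at h10

/-- `X_0` is a regular parameter of `H` -/
theorem ph_X0 (W : Type) [CommRing W] [IsRegularLocalRing W] (hW : ringKrullDim W = 2) (u : W)
    (hu : u ∈ maximalIdeal W) (hu2 : u ∉ maximalIdeal W ^ 2) (r A : ℕ)
    [IsLocalRing (PH W u A r)] :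
    phMk W u A r (MvPowerSeries.X 0) ∈ maximalIdeal (PH W u A r) ∧
      phMk W u A r (MvPowerSeries.X 0) ∉ maximalIdeal (PH W u A r) ^ 2 := by
  have hsurj : Function.Surjective (phMk W u A r) := Ideal.Quotient.mk_surjective
  have hker : RingHom.ker (phMk W u A r) = phI W u A r := Ideal.mk_ker
  have hmax : maximalIdeal (PH W u A r) =
      Ideal.map (phMk W u A r) (maximalIdeal (MvPowerSeries (Fin (r + 2)) W)) := by
    rcases Ideal.map_eq_top_or_isMaximal_of_surjective (phMk W u A r) hsurj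
      (maximalIdeal.isMaximal (MvPowerSeries (Fin (r + 2)) W)) with h | h
    · exfalso
      have h1 : (phMk W u A r) 1 ∈ Ideal.map (phMk W u A r)
          (maximalIdeal (MvPowerSeries (Fin (r + 2)) W)) := by
        rw [h]
        exact Submodule.mem_top
      rw [← Ideal.mem_comap, Ideal.comap_map_of_surjective' _ hsurj, hker] at h1
      have h2 : phI W u A r ≤ maximalIdeal (MvPowerSeries (Fin (r + 2)) W) := by
        rw [phI, Ideal.span_singleton_le_iff_mem]
        apply c_mem
        rw [map_sub, map_mul, map_pow, MvPowerSeries.constantCoeff_X,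
          zero_pow (Nat.succ_ne_zero A), zero_mul, zero_sub, MvPowerSeries.constantCoeff_C]
        exact (maximalIdeal W).neg_mem hu
      rw [sup_eq_left.2 h2] at h1
      exact (maximalIdeal.isMaximal (MvPowerSeries (Fin (r + 2)) W)).ne_top
        ((Ideal.eq_top_iff_one _).2 h1)
    · exact (IsLocalRing.eq_maximalIdeal h).symm
  constructor
  · rw [hmax]
    apply Ideal.mem_map_of_mem
    apply c_mem
    rw [MvPowerSeries.constantCoeff_X]
    exact Ideal.zero_mem _
  · intro h
    rw [hmax, ← Ideal.map_pow, ← Ideal.mem_comap, Ideal.comap_map_of_surjective' _ hsurj, hker,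
      Submodule.mem_sup] at h
    obtain ⟨z, hz, w, hw, hzw⟩ := h
    rw [phI, Ideal.mem_span_singleton] at hw
    obtain ⟨b, hb⟩ := hw
    have hz' : z = MvPowerSeries.X 0 - (MvPowerSeries.X 0 ^ (A + 1) * MvPowerSeries.X 1 -
        MvPowerSeries.C u) * b := by
      rw [← hb, ← hzw]
      ring
    have hz0 : MvPowerSeries.constantCoeff z ∈ maximalIdeal W := by
      rw [hz', map_sub, map_mul, map_sub, map_mul, map_pow, MvPowerSeries.constantCoeff_X,
        zero_pow (Nat.succ_ne_zero A), MvPowerSeries.constantCoeff_C, zero_mul, zero_sub, zero_sub,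
        neg_mul, neg_neg]
      exact Ideal.mul_mem_right _ _ hu
    have hz1 : IsUnit (MvPowerSeries.coeff (Finsupp.single 0 1) z) := by
      have h4 : MvPowerSeries.coeff (Finsupp.single (0 : Fin (r + 2)) 1)
          ((MvPowerSeries.X 0 ^ (A + 1) * MvPowerSeries.X 1 : MvPowerSeries (Fin (r + 2)) W) *
            b) = 0 := by
        have h5 := MvPowerSeries.coeff_add_monomial_mul (Finsupp.single (0 : Fin (r + 2)) 1)
          (0 : Fin (r + 2) →₀ ℕ) (MvPowerSeries.X 1 * (MvPowerSeries.X 0 ^ A * b)) (1 : W)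
        rw [one_mul, add_zero, MvPowerSeries.coeff_zero_X_mul] at h5
        have h6 : (MvPowerSeries.X 0 ^ (A + 1) * MvPowerSeries.X 1 :
            MvPowerSeries (Fin (r + 2)) W) * b = MvPowerSeries.X 0 *
              (MvPowerSeries.X 1 * (MvPowerSeries.X 0 ^ A * b)) := by
          rw [pow_succ]; ring
        rw [h6]
        exact h5
      rw [hz', map_sub, sub_mul, map_sub, h4, MvPowerSeries.coeff_C_mul, zero_sub,
        sub_neg_eq_add, MvPowerSeries.coeff_index_single_self_X]
      by_contra hnu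
      have h6 : (1 : W) + u * MvPowerSeries.coeff (Finsupp.single 0 1) b ∈ maximalIdeal W :=
        (mem_maximalIdeal _).2 hnu
      have h7 := (maximalIdeal W).sub_mem h6 (Ideal.mul_mem_right
        (MvPowerSeries.coeff (Finsupp.single 0 1) b) (maximalIdeal W) hu)
      rw [add_sub_cancel_right] at h7
      exact (maximalIdeal.isMaximal W).ne_top ((Ideal.eq_top_iff_one _).2 h7)
    exact c_notMem (r + 2) W z hz0 0 hz1 hz

/-- `v` and the variables generate the maximal ideal of `H` if `u, v` generate that of `W` -/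
theorem ph_max (W : Type) [CommRing W] [IsLocalRing W] [IsNoetherianRing W] (u : W)
    (hu : u ∈ maximalIdeal W) (r A : ℕ) [IsLocalRing (PH W u A r)] (v : W)
    (huv : maximalIdeal W = Ideal.span {u, v}) :
    maximalIdeal (PH W u A r) = Ideal.span ({phMk W u A r (MvPowerSeries.C v)} ∪
      Set.range (fun i : Fin (r + 2) => phMk W u A r (MvPowerSeries.X i))) := by
  have hsurj : Function.Surjective (phMk W u A r) := Ideal.Quotient.mk_surjective
  have hker : RingHom.ker (phMk W u A r) = phI W u A r := Ideal.mk_ker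
  have hmax : maximalIdeal (PH W u A r) =
      Ideal.map (phMk W u A r) (maximalIdeal (MvPowerSeries (Fin (r + 2)) W)) := by
    rcases Ideal.map_eq_top_or_isMaximal_of_surjective (phMk W u A r) hsurj
      (maximalIdeal.isMaximal (MvPowerSeries (Fin (r + 2)) W)) with h | h
    · exfalso
      have h1 : (phMk W u A r) 1 ∈ Ideal.map (phMk W u A r)
          (maximalIdeal (MvPowerSeries (Fin (r + 2)) W)) := by
        rw [h]
        exact Submodule.mem_top
      rw [← Ideal.mem_comap, Ideal.comap_map_of_surjective' _ hsurj, hker] at h1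
      have h2 : phI W u A r ≤ maximalIdeal (MvPowerSeries (Fin (r + 2)) W) := by
        rw [phI, Ideal.span_singleton_le_iff_mem]
        apply c_mem
        rw [map_sub, map_mul, map_pow, MvPowerSeries.constantCoeff_X,
          zero_pow (Nat.succ_ne_zero A), zero_mul, zero_sub, MvPowerSeries.constantCoeff_C]
        exact (maximalIdeal W).neg_mem hu
      rw [sup_eq_left.2 h2] at h1
      exact (maximalIdeal.isMaximal (MvPowerSeries (Fin (r + 2)) W)).ne_top
        ((Ideal.eq_top_iff_one _).2 h1)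
    · exact (IsLocalRing.eq_maximalIdeal h).symm
  have hu' : phMk W u A r (MvPowerSeries.C u) =
      phMk W u A r (MvPowerSeries.X 0) *
        phMk W u A r (MvPowerSeries.X 0 ^ A * MvPowerSeries.X 1) := by
    rw [← map_mul, ← mul_assoc, ← pow_succ']
    symm
    refine (Ideal.Quotient.mk_eq_mk_iff_sub_mem _ _).2 ?_
    exact Ideal.subset_span (Set.mem_singleton _)
  rw [hmax, (t_QPAR (r + 2) W).1 u v huv, Ideal.map_span]
  apply le_antisymm
  · rw [Ideal.span_le]
    rintro _ ⟨z, hz, rfl⟩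
    rcases hz with hz | ⟨i, rfl⟩
    · rcases hz with rfl | hz
      · show phMk W u A r (MvPowerSeries.C u) ∈ _
        rw [hu']
        exact Ideal.mul_mem_right _ _ (Ideal.subset_span (Or.inr ⟨0, rfl⟩))
      · rw [Set.mem_singleton_iff] at hz
        subst hz
        exact Ideal.subset_span (Or.inl rfl)
    · exact Ideal.subset_span (Or.inr ⟨i, rfl⟩)
  · apply Ideal.span_mono
    rintro _ (rfl | ⟨i, rfl⟩)
    · exact ⟨_, Or.inl (Or.inr rfl), rfl⟩
    · exact ⟨_, Or.inr ⟨i, rfl⟩, rfl⟩

/-- regularity -/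
theorem ph_reg (W : Type) [CommRing W] [IsRegularLocalRing W] (hW : ringKrullDim W = 2) (u : W)
    (hu : u ∈ maximalIdeal W) (hu2 : u ∉ maximalIdeal W ^ 2) (r A : ℕ) :
    IsRegularLocalRing (PH W u A r) ∧
      ringKrullDim (PH W u A r) = ((r + 3 : ℕ) : WithBot ℕ∞) := by
  obtain ⟨hd, hpr, t, ht⟩ := t_R2U W hW u hu hu2
  have h := reg_k W hW u t ht hpr r (MvPowerSeries.X 0 ^ A * MvPowerSeries.X 1)
  have e : KF u r (MvPowerSeries.X 0 ^ A * MvPowerSeries.X 1) =
      MvPowerSeries.X 0 ^ (A + 1) * MvPowerSeries.X 1 - MvPowerSeries.C u := by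
    unfold KF
    rw [pow_succ]
    ring
  rw [e] at h
  exact h

/-- the ring `D[1/X₀]` -/
theorem ph_H1 (W : Type) [CommRing W] [IsRegularLocalRing W] [IsAdicComplete (maximalIdeal W) W]
    (hW : ringKrullDim W = 2) (u : W) (hu : u ∈ maximalIdeal W) (hu2 : u ∉ maximalIdeal W ^ 2)
    (r A : ℕ) : AF (Localization.Away (phMk W u A r (MvPowerSeries.X 0))) := by
  obtain ⟨hd, hpr, t, ht⟩ := t_R2U W hW u hu hu2
  have h1 := ph_away W u t ht hpr r A 1 one_ne_zero
    (c_awayCX W u t ht hpr 1 (Or.inl rfl) r)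
  rwa [map_one, mul_one] at h1

/-- the ring `D[1/(v c X₀)]` -/
theorem ph_H2 (W : Type) [CommRing W] [IsRegularLocalRing W] [IsAdicComplete (maximalIdeal W) W]
    (hW : ringKrullDim W = 2) (u : W) (hu : u ∈ maximalIdeal W) (hu2 : u ∉ maximalIdeal W ^ 2)
    (r A : ℕ) (v c : W) (hv : v ∈ maximalIdeal W) (hv2 : v ∉ maximalIdeal W ^ 2) (hc : c ≠ 0) :
    AF (Localization.Away (phMk W u A r (MvPowerSeries.X 0 * MvPowerSeries.C (v * c)))) := by
  obtain ⟨hd, hpr, t, ht⟩ := t_R2U W hW u hu hu2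
  obtain ⟨-, hprv, tv, htv⟩ := t_R2U W hW v hv hv2
  exact ph_away W u t ht hpr r A (v * c) (mul_ne_zero hprv.ne_zero hc)
    (c_awayCX W v tv htv hprv (v * c) (Or.inr ⟨c, hc, rfl⟩) r)

end Pool.Agent.Q111.HP
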